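import Pool.Agent.W353.EF.Defs

/-! The order at the edge over extension fields: proofs. -/

set_option autoImplicit false

namespace Pool.Agent.W353.EF

open NumberField IsDedekindDomain Filter Topology Polynomial IntermediateField
open scoped TensorProduct

open Classical in
open Pool.Agent.W353.NF Pool.Agent.W353.AB Pool.Agent.W353.SN Pool.Agent.W353.PV in
/-- the four results together -/
theorem all (N : ℕ) : ∃ n₀ : ℕ, ∀ (K : Type) [Field K] [NumberField K] (n d i : ℕ)
    (X : Set (MvPolynomial (Fin n) (𝓞 K))), i ≤ 2 * d →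
    (∀ c : ℕ, OneFieldGoverns X d i N c) ∧ NearRelations X d i N ∧ RadicalExtensions X d i N ∧
      SymmetricFields X d i N n₀ := by
  classical
  obtain ⟨n₁, hbig⟩ := big (N : ℝ)
  refine ⟨n₁, fun K _ _ n d i X hi => ?_⟩
  have hkap : kap 0 = 1 := by
    unfold kap
    rw [if_pos rfl]
  have hsz : ∀ (F : Type) [Field F] [NumberField F] [Algebra K F]
      (B : HeightOneSpectrum (𝓞 F) → ℂ[X]) (e : Fin 0 → 𝓞 F), IsEulerSystem X d i N B →
      (∀ᶠ ε : ℝ in 𝓝[>] 0, LFun B ((i : ℂ) / 2 + 1 + ε) ≠ 0) ∧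
      (syX X d i N).IsSize (F := F) e 0 (size i B) := by
    intro F _ _ _ B e hB
    exact size_X0 hi B hB.1 hB.2 e
  have hlim : ∀ (F : Type) [Field F] [NumberField F] [Algebra K F]
      (B : HeightOneSpectrum (𝓞 F) → ℂ[X]), IsEulerSystem X d i N B →
      ∀ m : ℤ, HasOrder i B m → Tendsto (size i B) (𝓝[>] 0) (𝓝 (-(m : ℝ))) := by
    intro F _ _ _ B hB m hm
    obtain ⟨Λ, h1, h2, h3⟩ := hm
    exact lim_ord (hsz F B (fun _ => 1) hB).1 h1 (h2.mono fun s hs hs' => hs (by
      have e : ((i : ℂ) / 2 + 1).re = (i : ℝ) / 2 + 1 := by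
        simp
      rw [← e]
      exact hs')) h3
  have hint : ∀ m m' : ℤ, |(m : ℝ) - m'| < 1 → m = m' := by
    intro m m' h
    have h1 : |m - m'| < 1 := by exact_mod_cast h
    rw [Int.abs_lt_one_iff] at h1
    omega
  have hder : ∀ (F : Type) [Field F] [Algebra K F] (m m' : ℤ), OrderOver X d i N F m →
      OrderOver X d i N K m' → |(m : ℝ) - m'| ≤ 2 * N * derangements K F := by
    rintro F _ _ m m' ⟨_, B, hB, hm⟩ ⟨_, B', hB', hm'⟩
    have t1 := hlim F B hB m hm
    have t2 := hlim K B' hB' m' hm'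
    refine le_of_forall_pos_le_add fun η hη => ?_
    have t3 := (t1.sub t2).abs
    have e : |-(m : ℝ) - -(m' : ℝ)| = |(m : ℝ) - m'| := by
      rw [← abs_neg]
      congr 1
      ring
    rw [e] at t3
    have h1 := ineq2 (K := K) (F := F) (syX X d i N) (syX_real X d i N) 0 (size i B') (size i B)
      (hsz K B' (fun _ => 1) hB').2 (hsz F B (fun _ => 1) hB).2 hη
    rw [syX_b, hkap] at h1
    refine (le_of_tendsto t3 h1).trans (le_of_eq ?_)
    change (N : ℝ) * (1 * (2 * drg K F)) + η = 2 * N * drg K F + η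
    ring
  have hgov : ∀ (c : ℕ) (P : ∀ (F : IntermediateField K (AlgebraicClosure K)) [NumberField F],
      Prop) (_ : ∀ (F : IntermediateField K (AlgebraicClosure K)) [NumberField F], P F →
        Nat.card (MaximalSpectrum (F ⊗[K] F)) ≤ c)
      (_ : ∀ (F F₀ : IntermediateField K (AlgebraicClosure K)) [NumberField F] [NumberField F₀],
        F₀ ≤ F → P F → P F₀),
      ∃ M : IntermediateField K (AlgebraicClosure K), FiniteDimensional K M ∧ IsGalois K M ∧
        ((∀ (F : IntermediateField K (AlgebraicClosure K)) [NumberField F], P F →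
          Module.finrank K F ≤ c) → Module.finrank K M ≤ c.factorial ^ (2 * c * N ^ 2)) ∧
        ∀ (F : IntermediateField K (AlgebraicClosure K)) [NumberField F], P F → ∀ m m' : ℤ,
          OrderOver X d i N F m →
            OrderOver X d i N (F ⊓ M : IntermediateField K (AlgebraicClosure K)) m' →
              m = m' := by
    intro c P hP hP'
    obtain ⟨M, h1, h2, h3, h4⟩ := gov X d i N c c P hP 1 le_rfl
    refine ⟨M, h1, h2, fun h => ?_, ?_⟩
    · have h5 := h3 h
      rwa [one_mul] at h5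
    · rintro F _ hF m m' ⟨_, B, hB, hm⟩ ⟨_, B', hB', hm'⟩
      obtain ⟨-, h5⟩ := h4 F (F ⊓ M) rfl (fun _ => 1) (fun _ => 1) 0 (size i B) (size i B')
        (hsz F B (fun _ => 1) hB).2 (hsz _ B' (fun _ => 1) hB').2 hF
        (hP' F (F ⊓ M) inf_le_left hF)
      have h6 := h5 _ _ (hlim F B hB m hm) (hlim _ B' hB' m' hm')
      refine hint m m' ?_
      have e : |-(m : ℝ) - -(m' : ℝ)| = |(m : ℝ) - m'| := by
        rw [← abs_neg]
        congr 1
        ring
      rw [e] at h6
      simpa using h6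
  refine ⟨fun c => ⟨?_, ?_⟩, ⟨?_, hder⟩, ?_, ?_⟩
  · obtain ⟨M, h1, h2, -, h3⟩ := hgov c
      (fun F _ => Nat.card (MaximalSpectrum (F ⊗[K] F)) ≤ c) (fun F _ h => h)
      (fun F F₀ _ _ h hF => (rank_mono h).trans hF)
    refine ⟨M, h1, h2, fun F hF m m' hm hm' => ?_⟩
    obtain ⟨hnf, -⟩ := id hm
    exact h3 F hF m m' hm hm'
  · obtain ⟨M, h1, h2, h4, h3⟩ := hgov c
      (fun F _ => Module.finrank K F ≤ c)
      (fun F _ h => by
        refine le_trans ?_ h
        rw [Nat.card_eq_fintype_card]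
        exact Pool.Agent.W353.TP.card_max_le K F F)
      (fun F F₀ _ _ h hF => (Pool.Agent.W353.TP.finrank_mono' h).trans hF)
    refine ⟨M, h1, h2, h4 fun F _ h => h, fun F hF m m' hm hm' => ?_⟩
    obtain ⟨hnf, -⟩ := id hm
    exact h3 F hF m m' hm hm'
  · intro l F _ _ c m hm
    choose hnf B hB hm using hm
    have hmean : meanAbs K F c = Pool.Agent.W353.L1.avR
        (MonoidHom.pi fun k => act K (F k)).ker
        (fun q => |∑ k, c k * (fixn K (F k) q.out : ℝ)|) :=
      (avR_ker (MonoidHom.pi fun k => act K (F k)) fun g =>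
        |∑ k, c k * (Nat.card {i : F k →ₐ[K] AlgebraicClosure K // g k i = i} : ℝ)|).symm
    have hopen : IsOpen ((MonoidHom.pi fun k => act K (F k)).ker :
        Set (Pool.Agent.W401.Cheb.GK K)) := by
      have e : ((MonoidHom.pi fun k => act K (F k)).ker : Set (Pool.Agent.W401.Cheb.GK K)) =
          ⋂ k, ((act K (F k)).ker : Set (Pool.Agent.W401.Cheb.GK K)) := by
        ext σ
        rw [SetLike.mem_coe, MonoidHom.mem_ker, Set.mem_iInter, funext_iff]
        rfl
      rw [e]
      exact isOpen_iInter_of_finite fun k => ker_act_open K (F k)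
    have hfin : Finite (Pool.Agent.W401.Cheb.GK K ⧸ (MonoidHom.pi fun k => act K (F k)).ker) :=
      Subgroup.quotient_finite_of_isOpen _ hopen
    have hine : ∀ η : ℝ, 0 < η → ∀ᶠ ε : ℝ in 𝓝[>] 0,
        |∑ k, c k * size i (B k) ε| ≤ N * meanAbs K F c + η := by
      intro η hη
      have h1 := ineq1 (syX X d i N) (syX_real X d i N)
        (MonoidHom.pi fun k => act K (F k)).ker hopen
        Finset.univ F (fun k _ u hu => congrFun ((MonoidHom.mem_ker).1 hu) k) 0
        (fun k => size i (B k)) (fun k _ => (hsz (F k) (B k) (fun _ => 1) (hB k)).2) c hη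
      rw [syX_b, ← hmean, hkap, one_mul] at h1
      exact h1
    exact Pool.Agent.W353.L1.lim_le (K := Finset.univ)
      (fun k _ => hlim (F k) (B k) (hB k) (m k) (hm k)) c hine
  · intro p ζ α a hp hζ hN hα hdeg m m' hm hm'
    obtain ⟨hnf, -⟩ := id hm
    have h1 := hder K⟮α⟯ m m' hm hm'
    have h2 : derangements K K⟮α⟯ ≤ 1 / Module.finrank K K⟮ζ⟯ := drg_rad hp hζ hα hdeg
    have h3 : (2 * N : ℝ) < Module.finrank K K⟮ζ⟯ := by exact_mod_cast hN
    have h4 : (0 : ℝ) < Module.finrank K K⟮ζ⟯ := lt_of_le_of_lt (by positivity) h3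
    refine hint m m' (lt_of_le_of_lt (h1.trans
      (mul_le_mul_of_nonneg_left h2 (by positivity))) ?_)
    rw [mul_one_div, div_lt_one h4]
    exact h3
  · intro F _ _ _ hF hn m hm
    -- the fields of the Young subgroups
    have hyoung : ∀ r : Setoid (F →ₐ[K] AlgebraicClosure K), youngField K F r =
        MH K F (yg r) := fun r => rfl
    have hbot : yg (⊥ : Setoid (F →ₐ[K] AlgebraicClosure K)) = ⊥ := by
      ext g
      rw [mem_yg, Subgroup.mem_bot]
      constructor
      · intro h
        exact Equiv.ext fun x => (h x).symm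
      · intro h x
        rw [h]
        rfl
    have htop : yg (⊤ : Setoid (F →ₐ[K] AlgebraicClosure K)) = ⊤ := by
      ext g
      exact ⟨fun _ => trivial, fun _ _ => trivial⟩
    -- the limits
    have core : ∀ 𝒰 : Ultrafilter ℝ, (𝒰 : Filter ℝ) ≤ 𝓝[>] 0 → ∃ a b : ℤ,
        m ⊥ = -(a + b) ∧
        m ⊤ = -(a + b * (if (∀ h ∈ (⊤ : Subgroup (PX K F)), Equiv.Perm.sign h = 1) then 1
          else 0)) ∧
        |((a + b : ℤ) : ℝ)| ≤ N ∧
        ((∃ h : PX K F, Equiv.Perm.sign h ≠ 1) → |((a - b : ℤ) : ℝ)| ≤ N) ∧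
        ∀ (H : Subgroup (PX K F)) [NumberField (MH K F H)] (Y : ℝ → ℝ),
          (syX X d i N).IsSize (F := MH K F H) (fun _ => 1) 0 Y → Tendsto Y 𝒰
            (𝓝 ((a + b * (if (∀ h ∈ H, Equiv.Perm.sign h = 1) then 1 else 0) : ℤ) : ℝ)) := by
      intro 𝒰 h𝒰
      obtain ⟨θ, hθb, hθc, hθs⟩ := exists_theta (K := K) (F := F) (syX X d i N)
        (syX_real X d i N) hF 0 𝒰 h𝒰
      rw [syX_b, hkap, mul_one] at hθb
      -- sums over the subgroups
      have hsum : ∀ (H : Subgroup (PX K F)) (k : ℤ), OrderOver X d i N (MH K F H) k →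
          ∑ᶠ h : H, θ h = ((-k : ℤ) : ℝ) * Nat.card H := by
        rintro H k ⟨hnf, B, hB, hk⟩
        have h5 := (hlim (MH K F H) B hB k hk).mono_left h𝒰
        have h6 := hθs H _ (hsz (MH K F H) B (fun _ => 1) hB).2
        rw [tendsto_nhds_unique h6 (h5.const_mul (Nat.card H : ℝ))]
        push_cast
        ring
      have hYS : YS θ := by
        intro r
        have h1 := hm r
        rw [hyoung] at h1
        exact ⟨_, hsum (yg r) _ h1⟩
      obtain ⟨a, b, hab⟩ : Lin θ := by
        refine hbig _ ?_ θ (fun g u => hθc g u) hYS hθb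
        have h1 : Fintype.card (F →ₐ[K] AlgebraicClosure K) = Module.finrank K F :=
          AlgHom.card K F (AlgebraicClosure K)
        convert hn
      have hHsum : ∀ H : Subgroup (PX K F), ∑ᶠ h : H, θ h =
          ((a + b * (if (∀ h ∈ H, Equiv.Perm.sign h = 1) then 1 else 0) : ℤ) : ℝ) *
            Nat.card H := by
        intro H
        have h1 := sum_sub H θ a b
        have h2 : ∑ᶠ h : H, (θ h - (a + b * ((Equiv.Perm.sign (h : PX K F) : ℤ) : ℝ))) = 0 := by
          rw [← finsum_zero (α := H)]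
          refine finsum_congr fun h => ?_
          rw [hab, sub_self]
        rw [h2, sum_sign] at h1
        have h3 : ∑ᶠ h : H, θ h = a * Nat.card H + b * (if ∀ h ∈ H, Equiv.Perm.sign h = 1 then
            (Nat.card H : ℝ) else 0) := by linarith
        rw [h3]
        split_ifs <;> push_cast <;> ring
      have hne : ∀ H : Subgroup (PX K F), (Nat.card H : ℝ) ≠ 0 := fun H => by
        exact_mod_cast Nat.card_pos.ne'
      have hord : ∀ (H : Subgroup (PX K F)) (k : ℤ), OrderOver X d i N (MH K F H) k →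
          k = -(a + b * (if (∀ h ∈ H, Equiv.Perm.sign h = 1) then 1 else 0)) := by
        intro H k hk
        have h1 := hsum H k hk
        rw [hHsum] at h1
        have h3 := mul_right_cancel₀ (hne H) h1
        have h4 : a + b * (if (∀ h ∈ H, Equiv.Perm.sign h = 1) then 1 else 0) = -k := by
          exact_mod_cast h3
        rw [h4, neg_neg]
      refine ⟨a, b, ?_, hord ⊤ (m ⊤) (by rw [← htop, ← hyoung]; exact hm ⊤), ?_, ?_, ?_⟩
      · have h1 := hord ⊥ (m ⊥) (by rw [← hbot, ← hyoung]; exact hm ⊥)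
        rw [if_pos (fun h hh => by rw [(Subgroup.mem_bot).1 hh, Equiv.Perm.sign_one]),
          mul_one] at h1
        exact h1
      · have h1 := hθb 1
        rw [hab 1, Equiv.Perm.sign_one] at h1
        push_cast at h1 ⊢
        rwa [mul_one] at h1
      · rintro ⟨g, hg⟩
        have hg' : Equiv.Perm.sign g = -1 := (Int.units_eq_one_or _).resolve_left hg
        have h2 := hθb g
        rw [hab, hg'] at h2
        push_cast at h2 ⊢
        rwa [mul_neg, mul_one, ← sub_eq_add_neg] at h2
      · intro H _ Y hY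
        have h1 := (hθs H Y hY).const_mul ((Nat.card H : ℝ)⁻¹)
        rw [hHsum] at h1
        have e : (Nat.card H : ℝ)⁻¹ * (((a + b * (if (∀ h ∈ H, Equiv.Perm.sign h = 1) then 1 else
            0) : ℤ) : ℝ) * Nat.card H) =
            ((a + b * (if (∀ h ∈ H, Equiv.Perm.sign h = 1) then 1 else 0) : ℤ) : ℝ) := by
          rw [mul_comm, mul_assoc, mul_inv_cancel₀ (hne H), mul_one]
        rw [e] at h1
        refine h1.congr fun ε => ?_
        rw [inv_mul_cancel_left₀ (hne H)]
    refine ⟨fun M _ hM B hB => ?_, ?_⟩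
    · obtain ⟨H, hH⟩ : ∃ H, M = MH K F H := ⟨_, eq_MH K F hM⟩
      subst hH
      have hsz' := hsz (MH K F H) B (fun _ => 1) hB
      have hiff : (∀ h ∈ H, Equiv.Perm.sign h = 1) ↔ quadField K F ≤ MH K F H := by
        have h3 : quadField K F =
            MH K F (Equiv.Perm.sign (α := F →ₐ[K] AlgebraicClosure K)).ker := rfl
        rw [h3]
        constructor
        · intro h
          exact IntermediateField.fixedField_antitone (Subgroup.comap_mono h)
        · intro h g hg
          obtain ⟨σ, rfl⟩ := hF g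
          have h4 := IntermediateField.fixingSubgroup_antitone h
          rw [fix_MH, fix_MH] at h4
          exact h4 (show σ ∈ H.comap (act K F) from hg)
      have hlimM : Tendsto (size i B) (𝓝[>] 0) (𝓝 (-(expected F m (MH K F H) : ℝ))) := by
        unfold expected
        rw [tendsto_iff_ultrafilter]
        intro 𝒰 h𝒰
        obtain ⟨a, b, h1, h2, -, -, h3⟩ := core 𝒰 h𝒰
        have h4 := h3 H (size i B) hsz'.2
        convert h4 using 2
        by_cases hQ : quadField K F ≤ MH K F H
        · rw [if_pos hQ, if_pos (hiff.2 hQ), h1]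
          push_cast
          ring
        · rw [if_neg hQ, if_neg (fun h => hQ (hiff.1 h)), h2, if_neg]
          · push_cast
            ring
          · intro h
            exact hQ (hiff.1 fun g hg => h g trivial)
      refine ⟨hsz'.1, hlimM, fun k hk => ?_⟩
      have h5 := neg_injective (tendsto_nhds_unique (hlim (MH K F H) B hB k hk) hlimM)
      exact_mod_cast h5
    · obtain ⟨a, b, h1, h2, h3, h4, -⟩ := core (Ultrafilter.of (𝓝[>] 0)) (Ultrafilter.of_le _)
      have hbd : ((|m ⊤| + |m ⊥ - m ⊤| : ℤ) : ℝ) ≤ N := by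
        by_cases hall : ∀ g : PX K F, Equiv.Perm.sign g = 1
        · rw [if_pos fun g _ => hall g, mul_one] at h2
          rw [h1, h2, sub_self, abs_zero, add_zero, abs_neg]
          exact_mod_cast h3
        · have hall' : ¬ ∀ g ∈ (⊤ : Subgroup (PX K F)), Equiv.Perm.sign g = 1 := fun h =>
            hall fun g => h g trivial
          rw [if_neg hall', mul_zero, add_zero] at h2
          push Not at hall
          have h5 := h4 hall
          rw [h1, h2]
          have e : -(a + b) - -a = -b := by ring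
          rw [e, abs_neg, abs_neg]
          push_cast at h3 h5 ⊢
          rcases abs_cases (a : ℝ) with ⟨g3, -⟩ | ⟨g3, -⟩ <;>
            rcases abs_cases (b : ℝ) with ⟨g4, -⟩ | ⟨g4, -⟩ <;> rw [g3, g4] <;>
            rcases abs_le.1 h3 with ⟨g5, g6⟩ <;> rcases abs_le.1 h5 with ⟨g7, g8⟩ <;> linarith
      exact_mod_cast hbd

end Pool.Agent.W353.EF
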